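import Mathlib
import Pool.Agent.Helper8.KP.LocB
import Pool.Agent.Helper8.KP.Main

/-!
# H4PP/Quot: either a quotient of the family is localised, or the family is localised relative to the quotient

`f ξ i < h i`, `q i : Fin (h i) → Fin (c i)`.  Rows `y δ i = (f (x δ j) i)_{j < i}`.  Two sequences of rows are related if the
rows at their first difference have different images under `q`.
-/

set_option autoImplicit false

namespace Pool.Agent.H4PP

open Finset Pool.Agent.Helper8.KP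

/-- the number of nodes at level `i` -/
def nN (h : ℕ → ℕ) (i : ℕ) : ℕ := ∏ l ∈ Finset.range i, h l ^ l

theorem quot_dich (H : Star) {Ω : Type} [LinearOrder Ω] [Uncountable Ω]
    (hc : ∀ a : Ω, (Set.Iio a).Countable) (hcard : Cardinal.mk Ω ≤ Cardinal.continuum) (h c : ℕ → ℕ)
    (hh : ∀ i, 1 ≤ h i) (q : (i : ℕ) → Fin (h i) → Fin (c i)) (f : Ω → (i : ℕ) → Fin (h i)) :
    (∃ S : (i : ℕ) → Finset (Fin (c i)), (∀ i, (S i).card ≤ nN h i ^ i * (i * i)) ∧
      ∀ ξ, ∃ k, ∀ i, k ≤ i → q i (f ξ i) ∈ S i) ∨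
    (∃ S : (i : ℕ) → Finset (Fin (h i)), (∀ i, (S i).card ≤ nN h i * (i * c i ^ i)) ∧
      ∀ ξ, ∃ k, ∀ i, k ≤ i → f ξ i ∈ S i) := by
  classical
  obtain ⟨x, hx⟩ := exists_inter hc hcard
  let ρ : (i : ℕ) → (Fin i → Fin (h i)) → (Fin i → Fin (h i)) → Prop := fun i v w =>
    ∃ j, q i (v j) ≠ q i (w j)
  have hρs : ∀ i v w, ρ i v w → ρ i w v := by
    rintro i v w ⟨j, hj⟩
    exact ⟨j, hj.symm⟩
  let y : Ω → Rw h := fun δ i j => f (x δ j) i
  have hNpos : ∀ i, 1 ≤ nN h i := fun i =>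
    Finset.prod_pos fun l _ => Nat.pow_pos (hh l)
  by_cases hccc : ∀ (𝒜 : Set (Finset Ω)) (m : ℕ), ¬ 𝒜.Countable → (∀ F ∈ 𝒜, F.Nonempty) →
      (∀ F ∈ 𝒜, F.card = m) → (∀ F ∈ 𝒜, ∀ G ∈ 𝒜, F ≠ G → Disjoint F G) →
      (∀ F ∈ 𝒜, ∀ a ∈ F, ∀ b ∈ F, a ≠ b → Rl ρ (y a) (y b)) →
      ∃ F ∈ 𝒜, ∃ G ∈ 𝒜, F ≠ G ∧ ∀ a ∈ F, ∀ b ∈ G, Rl ρ (y a) (y b) ∧ Rl ρ (y b) (y a)
  · right
    obtain ⟨X, hXc, hX⟩ := exists_clique H (fun a b => Rl ρ (y a) (y b)) hccc
    let V : (i : ℕ) → Nd h i → Finset (Fin i → Fin (h i)) := fun i t =>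
      Finset.univ.filter fun v => ∃ δ ∈ X, ndr (y δ) i = t ∧ y δ i = v
    have hV : ∀ i t, (V i t).card ≤ c i ^ i := by
      intro i t
      have h1 : (V i t).card ≤ (Finset.univ : Finset (Fin i → Fin (c i))).card := by
        refine Finset.card_le_card_of_injOn (fun v j => q i (v j)) (fun _ _ => Finset.mem_coe.2 (Finset.mem_univ _)) ?_
        intro v hv w hw hvw
        replace hv := (Finset.mem_filter.1 (Finset.mem_coe.1 hv)).2
        replace hw := (Finset.mem_filter.1 (Finset.mem_coe.1 hw)).2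
        obtain ⟨δ, h1, h2, h3⟩ := hv
        obtain ⟨δ', h1', h2', h3'⟩ := hw
        by_contra hne
        have h4 : δ ≠ δ' := by
          intro h
          apply hne
          rw [← h3, ← h3', h]
        obtain ⟨j, hj⟩ := Rl.of_eq (hX _ h1 _ h1' h4) (h2.trans h2'.symm) (by rw [h3, h3']; exact hne)
        apply hj
        rw [h3, h3']
        exact congrFun hvw j
      rwa [Finset.card_univ, Fintype.card_fun, Fintype.card_fin, Fintype.card_fin] at h1
    refine ⟨fun i => Finset.univ.biUnion fun t : Nd h i => Finset.univ.biUnion fun j : Fin i =>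
      (V i t).image fun v => v j, ?_, ?_⟩
    · intro i
      refine (Finset.card_biUnion_le_card_mul _ _ (i * c i ^ i) fun t _ => ?_).trans ?_
      · refine (Finset.card_biUnion_le_card_mul _ _ (c i ^ i) fun j _ => ?_).trans ?_
        · exact Finset.card_image_le.trans (hV i t)
        · rw [Finset.card_univ, Fintype.card_fin]
      · rw [Finset.card_univ, card_Nd]
        exact le_rfl
    · intro ξ
      obtain ⟨δ, hδ, hξ⟩ : ∃ δ ∈ X, ξ < δ := by
        by_contra hcon
        push Not at hcon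
        apply hXc
        refine Set.Countable.mono (s₂ := Set.Iic ξ) (fun δ hδ => hcon δ hδ) ?_
        rw [← Set.Iio_insert]
        exact (hc ξ).insert ξ
      obtain ⟨j, -, -, hj⟩ := hx {δ} ξ (by
        intro δ' hδ'
        rw [Finset.mem_singleton] at hδ'
        rw [hδ']; exact hξ) 0 (by norm_num) 0
      have hj' : x δ j = ξ := hj δ (Finset.mem_singleton_self _)
      refine ⟨j + 1, fun i hi => ?_⟩
      rw [Finset.mem_biUnion]
      refine ⟨ndr (y δ) i, Finset.mem_univ _, ?_⟩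
      rw [Finset.mem_biUnion]
      refine ⟨⟨j, by omega⟩, Finset.mem_univ _, ?_⟩
      rw [Finset.mem_image]
      refine ⟨y δ i, ?_, ?_⟩
      · simp only [V, Finset.mem_filter, Finset.mem_univ, true_and]
        exact ⟨δ, hδ, rfl, rfl⟩
      · show f (x δ j) i = f ξ i
        rw [hj']
  · left
    push Not at hccc
    obtain ⟨𝒜, m, hA, hne, hm, hdis, hcl, hbad⟩ := hccc
    have hG : ∀ (i : ℕ) (P : Finset (Nd h i)), ∃ G : Finset Ω, G.card ≤ m ∧
        ((∃ F ∈ 𝒜, F.image (fun δ => ndr (y δ) i) = P) → G ∈ 𝒜 ∧ G.image (fun δ => ndr (y δ) i) = P) := by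
      intro i P
      by_cases hP : ∃ F ∈ 𝒜, F.image (fun δ => ndr (y δ) i) = P
      · obtain ⟨F, hF, hFP⟩ := hP
        exact ⟨F, (hm F hF).le, fun _ => ⟨hF, hFP⟩⟩
      · exact ⟨∅, Nat.zero_le _, fun h => absurd h hP⟩
    choose G hGm hG using hG
    refine ⟨fun i => if m ≤ i then (Finset.powersetCard m (Finset.univ : Finset (Nd h i))).biUnion
      fun P => (G i P).biUnion fun ε => Finset.univ.image fun j : Fin i => q i (y ε i j) else ∅, ?_, ?_⟩
    · intro i
      by_cases hmi : m ≤ i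
      swap
      · simp only [if_neg hmi, Finset.card_empty]
        exact Nat.zero_le _
      simp only [if_pos hmi]
      refine (Finset.card_biUnion_le_card_mul _ _ (i * i) fun P _ => ?_).trans ?_
      · refine (Finset.card_biUnion_le_card_mul _ _ i fun ε _ => ?_).trans ?_
        · refine Finset.card_image_le.trans ?_
          rw [Finset.card_univ, Fintype.card_fin]
        · exact Nat.mul_le_mul_right _ ((hGm i P).trans hmi)
      · refine Nat.mul_le_mul_right _ ?_
        rw [Finset.card_powersetCard, Finset.card_univ, card_Nd]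
        exact (Nat.choose_le_pow _ _).trans (Nat.pow_le_pow_right (hNpos i) hmi)
    · intro ξ
      obtain ⟨F, hF, hFξ⟩ := exists_above hc hA hdis ξ
      obtain ⟨N, hN⟩ := exists_sep y F (hcl F hF)
      obtain ⟨j, -, -, hj⟩ := hx F ξ hFξ 0 (by norm_num) 0
      refine ⟨N + m + j + 1, fun i hi => ?_⟩
      simp only [if_pos (show m ≤ i by omega)]
      obtain ⟨hG1, hG2⟩ := hG i (F.image (fun δ => ndr (y δ) i)) ⟨F, hF, rfl⟩
      have key : ∃ γ ∈ F, ∃ ε ∈ G i (F.image (fun δ => ndr (y δ) i)), ∀ j, q i (y γ i j) = q i (y ε i j) := by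
        by_contra hcon
        push Not at hcon
        by_cases hFG : F = G i (F.image (fun δ => ndr (y δ) i))
        · obtain ⟨γ, hγ⟩ := hne F hF
          obtain ⟨j, hj⟩ := hcon γ hγ γ (hFG ▸ hγ)
          exact hj rfl
        · have hR : ∀ γ ∈ F, ∀ ε ∈ G i (F.image (fun δ => ndr (y δ) i)), Rl ρ (y γ) (y ε) := by
            intro γ hγ ε hε
            by_cases hγε : ndr (y γ) i = ndr (y ε) i
            · refine ⟨i, hγε, ?_, hcon γ hγ ε hε⟩
              intro h
              obtain ⟨j, hj⟩ := hcon γ hγ ε hε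
              exact hj (by rw [h])
            · have hεP : ndr (y ε) i ∈ F.image (fun δ => ndr (y δ) i) := by
                rw [← hG2]
                exact Finset.mem_image_of_mem (fun δ => ndr (y δ) i) hε
              rw [Finset.mem_image] at hεP
              obtain ⟨δ, hδ, hδε⟩ := hεP
              have h3 : γ ≠ δ := by
                intro h
                apply hγε
                rw [h]
                exact hδε
              exact Rl.transfer (hcl _ hF γ hγ _ hδ h3) hγε hδε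
          obtain ⟨γ, hγ, ε, hε, h1⟩ := hbad F hF _ hG1 hFG
          exact h1 (hR γ hγ ε hε) (Rl.symm hρs (hR γ hγ ε hε))
      obtain ⟨γ, hγ, ε, hε, hq⟩ := key
      rw [Finset.mem_biUnion]
      refine ⟨F.image (fun δ => ndr (y δ) i), ?_, ?_⟩
      · rw [Finset.mem_powersetCard]
        refine ⟨Finset.subset_univ _, ?_⟩
        rw [Finset.card_image_of_injOn, hm F hF]
        intro a ha b hb hab
        exact hN i (by omega) a ha b hb hab
      · rw [Finset.mem_biUnion]
        refine ⟨ε, hε, ?_⟩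
        rw [Finset.mem_image]
        refine ⟨⟨j, by omega⟩, Finset.mem_univ _, ?_⟩
        rw [← hq]
        show q i (f (x γ j) i) = q i (f ξ i)
        rw [hj γ hγ]

/-- the same for families of functions with values in `ℕ`, indexed by a type of size at most `ℵ₁` -/
theorem quot_fam (H : Star) {ι : Type*} [Nonempty ι] (hι : Cardinal.mk ι ≤ Cardinal.aleph 1) (h c : ℕ → ℕ)
    (q : ℕ → ℕ → ℕ) (hq : ∀ i v, v < h i → q i v < c i) (f : ι → ℕ → ℕ) (hf : ∀ ξ i, f ξ i < h i) :
    (∃ S : ℕ → Finset ℕ, (∀ i, (S i).card ≤ nN h i ^ i * (i * i)) ∧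
      ∀ ξ, ∃ k, ∀ i, k ≤ i → q i (f ξ i) ∈ S i) ∨
    (∃ S : ℕ → Finset ℕ, (∀ i, (S i).card ≤ nN h i * (i * c i ^ i)) ∧
      ∀ ξ, ∃ k, ∀ i, k ≤ i → f ξ i ∈ S i) := by
  classical
  obtain ⟨Ω, i1, i2, i3, hc, hΩ⟩ := exists_omega1
  have hcard : Cardinal.mk Ω ≤ Cardinal.continuum := by
    rw [hΩ]; exact Cardinal.aleph_one_le_continuum
  obtain ⟨e⟩ : Nonempty (ι ↪ Ω) := by
    rw [← Cardinal.lift_mk_le', hΩ, Cardinal.lift_aleph]
    refine (Cardinal.lift_le.2 hι).trans ?_
    rw [Cardinal.lift_aleph]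
    simp
  have hπ : ∀ i, Function.invFun e (e i) = i := Function.leftInverse_invFun e.injective
  have hh : ∀ i, 1 ≤ h i := fun i => by
    have := hf (Classical.arbitrary ι) i
    omega
  rcases quot_dich H hc hcard h c hh (fun i v => ⟨q i v, hq i v v.2⟩)
    (fun ξ i => ⟨f (Function.invFun e ξ) i, hf _ _⟩) with ⟨S, hS, hSf⟩ | ⟨S, hS, hSf⟩
  · left
    refine ⟨fun i => (S i).image Fin.val, fun i => Finset.card_image_le.trans (hS i), fun ξ => ?_⟩
    obtain ⟨k, hk⟩ := hSf (e ξ)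
    refine ⟨k, fun i hi => ?_⟩
    rw [Finset.mem_image]
    refine ⟨_, hk i hi, ?_⟩
    simp only [hπ]
  · right
    refine ⟨fun i => (S i).image Fin.val, fun i => Finset.card_image_le.trans (hS i), fun ξ => ?_⟩
    obtain ⟨k, hk⟩ := hSf (e ξ)
    refine ⟨k, fun i hi => ?_⟩
    rw [Finset.mem_image]
    refine ⟨_, hk i hi, ?_⟩
    simp only [hπ]

end Pool.Agent.H4PP
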