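import Mathlib
import Pool.Agent.H4PP.Quot

/-!
# H4PP/Loc: localisation, the growth dichotomy and the ultrafilter
-/

set_option autoImplicit false

namespace Pool.Agent.H4PP

open Finset Pool.Agent.Helper8.KP

/-- `f` is captured at almost all `n ∈ Z` by a slalom of width `w` -/
def Cap {ι : Type*} (f : ι → ℕ → ℕ) (w : ℕ → ℕ) (Z : Set ℕ) : Prop :=
  ∃ S : ℕ → Finset ℕ, (∀ n, (S n).card ≤ w n) ∧ ∀ i, ∃ k, ∀ n, k ≤ n → n ∈ Z → f i n ∈ S n

/-- every family of at most `ℵ₁` functions below `h` is captured, at almost all `n ∈ Z`, by one slalom of width `w` -/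
def Loc (h w : ℕ → ℕ) (Z : Set ℕ) : Prop :=
  ∀ (ι : Type) (f : ι → ℕ → ℕ), Cardinal.mk ι ≤ Cardinal.aleph 1 → (∀ i n, f i n < h n) → Cap f w Z

/-- the gap condition: `w n` is large compared with the values of `h` before `n` -/
def Gap (h w : ℕ → ℕ) : Prop := ∀ n, n ^ 2 * (∏ l ∈ Finset.range n, h l) ^ (2 * n ^ 2) ≤ w n

/-- a nonprincipal ultrafilter is a P-point if every countable subfamily has a pseudointersection in it -/
def PPt (U : Ultrafilter ℕ) : Prop :=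
  (∀ n, {n} ∉ U) ∧ ∀ A : ℕ → Set ℕ, (∀ n, A n ∈ U) → ∃ Z ∈ U, ∀ n, (Z \ A n).Finite

theorem Cap.mono {ι : Type*} {f : ι → ℕ → ℕ} {w w' : ℕ → ℕ} {Z Z' : Set ℕ} (hf : Cap f w Z)
    (hw : ∀ n, w n ≤ w' n) (hZ : Z' ⊆ Z) : Cap f w' Z' := by
  obtain ⟨S, hS, hSf⟩ := hf
  refine ⟨S, fun n => (hS n).trans (hw n), fun i => ?_⟩
  obtain ⟨k, hk⟩ := hSf i
  exact ⟨k, fun n hn hnZ => hk n hn (hZ hnZ)⟩

theorem Cap.union {ι : Type*} {f : ι → ℕ → ℕ} {w : ℕ → ℕ} {Z Z' : Set ℕ} (h1 : Cap f w Z) (h2 : Cap f w Z') :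
    Cap f w (Z ∪ Z') := by
  classical
  obtain ⟨S, hS, hSf⟩ := h1
  obtain ⟨S', hS', hSf'⟩ := h2
  refine ⟨fun n => if n ∈ Z then S n else S' n, fun n => ?_, fun i => ?_⟩
  · by_cases hn : n ∈ Z
    · simp only [if_pos hn]; exact hS n
    · simp only [if_neg hn]; exact hS' n
  · obtain ⟨k, hk⟩ := hSf i
    obtain ⟨k', hk'⟩ := hSf' i
    refine ⟨k + k', fun n hn hnZ => ?_⟩
    by_cases hn' : n ∈ Z
    · simp only [if_pos hn']; exact hk n (by omega) hn'
    · simp only [if_neg hn']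
      exact hk' n (by omega) (hnZ.resolve_left hn')

theorem cap_of_isEmpty {ι : Type*} [IsEmpty ι] (f : ι → ℕ → ℕ) (w : ℕ → ℕ) (Z : Set ℕ) : Cap f w Z :=
  ⟨fun _ => ∅, fun _ => Nat.zero_le _, fun i => isEmptyElim i⟩

theorem Loc.mono {h w : ℕ → ℕ} {Z Z' : Set ℕ} (hL : Loc h w Z) (hZ : Z' ⊆ Z) : Loc h w Z' :=
  fun ι f hι hf => (hL ι f hι hf).mono (fun _ => le_rfl) hZ

theorem Loc.union {h w : ℕ → ℕ} {Z Z' : Set ℕ} (h1 : Loc h w Z) (h2 : Loc h w Z') : Loc h w (Z ∪ Z') :=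
  fun ι f hι hf => (h1 ι f hι hf).union (h2 ι f hι hf)

/-- the number of nodes is controlled by the gap condition -/
theorem nN_le {h c : ℕ → ℕ} (hh : ∀ l, 1 ≤ h l) (hc : ∀ l, c l ≤ h l ^ 2) (n : ℕ) :
    nN c n ≤ (∏ l ∈ Finset.range n, h l) ^ (2 * n) := by
  rw [nN, ← Finset.prod_pow]
  refine Finset.prod_le_prod' fun l hl => ?_
  rw [Finset.mem_range] at hl
  calc c l ^ l ≤ (h l ^ 2) ^ l := Nat.pow_le_pow_left (hc l) l
    _ = h l ^ (2 * l) := by rw [← pow_mul]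
    _ ≤ h l ^ (2 * n) := Nat.pow_le_pow_right (hh l) (by omega)

theorem gap_bound {h c w : ℕ → ℕ} (hg : Gap h w) (hh : ∀ l, 1 ≤ h l) (hc : ∀ l, c l ≤ h l ^ 2) (n : ℕ) :
    nN c n ^ n * (n * n) ≤ w n := by
  refine le_trans ?_ (hg n)
  rw [mul_comm, sq]
  refine Nat.mul_le_mul_left _ ?_
  calc nN c n ^ n ≤ ((∏ l ∈ Finset.range n, h l) ^ (2 * n)) ^ n := Nat.pow_le_pow_left (nN_le hh hc n) n
    _ = (∏ l ∈ Finset.range n, h l) ^ (2 * (n * n)) := by rw [← pow_mul, mul_assoc]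

theorem gap_bound' {h c w : ℕ → ℕ} (hg : Gap h w) (hh : ∀ l, 1 ≤ h l) (hc : ∀ l, c l ≤ h l ^ 2) (n : ℕ) :
    nN c n * n ≤ w n := by
  refine le_trans ?_ (hg n)
  rcases Nat.eq_zero_or_pos n with hn | hn
  · subst hn; simp
  have h1 : 1 ≤ ∏ l ∈ Finset.range n, h l := Nat.succ_le_of_lt (Finset.prod_pos fun l _ => hh l)
  calc nN c n * n ≤ (∏ l ∈ Finset.range n, h l) ^ (2 * n) * n := Nat.mul_le_mul_right _ (nN_le hh hc n)
    _ ≤ (∏ l ∈ Finset.range n, h l) ^ (2 * n ^ 2) * n ^ 2 := by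
        refine Nat.mul_le_mul (Nat.pow_le_pow_right h1 ?_) ?_ <;> nlinarith
    _ = _ := mul_comm _ _

/-- two families which are not captured can be joined -/
theorem join {ι ι' : Type} (hι : Cardinal.mk ι ≤ Cardinal.aleph 1) (hι' : Cardinal.mk ι' ≤ Cardinal.aleph 1) :
    Cardinal.mk (ι ⊕ ι') ≤ Cardinal.aleph 1 := by
  rw [Cardinal.mk_sum, Cardinal.lift_id, Cardinal.lift_id]
  exact (add_le_add hι hι').trans (Cardinal.add_eq_self (Cardinal.aleph0_le_aleph 1)).le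

/-- localised on `Z` or on its complement -/
theorem loc_or (H : Star) {h w : ℕ → ℕ} (hg : Gap h w) (Z : Set ℕ) : Loc h w Z ∨ Loc h w Zᶜ := by
  classical
  by_contra hcon
  push Not at hcon
  obtain ⟨h1, h2⟩ := hcon
  simp only [Loc, not_forall] at h1 h2
  obtain ⟨ι, f, hι, hf, h1⟩ := h1
  obtain ⟨ι', f', hι', hf', h2⟩ := h2
  have hne : Nonempty ι := by
    by_contra he
    rw [not_nonempty_iff] at he
    exact h1 (cap_of_isEmpty _ _ _)
  have hh : ∀ l, 1 ≤ h l := fun l => by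
    have := hf (Classical.arbitrary ι) l
    omega
  let c : ℕ → ℕ := fun i => if i ∈ Z then h i else 1
  have hc : ∀ l, h l ≤ h l ^ 2 := fun l => Nat.le_self_pow (by norm_num) _
  rcases quot_fam H (join hι hι') h c (fun i v => if i ∈ Z then v else 0) (by
    intro i v hv
    by_cases hi : i ∈ Z
    · simp only [c, if_pos hi]; exact hv
    · simp only [c, if_neg hi]; exact Nat.one_pos) (Sum.elim f f') (by
    rintro (ξ | ξ) i
    · exact hf ξ i
    · exact hf' ξ i) with ⟨S, hS, hSf⟩ | ⟨S, hS, hSf⟩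
  · apply h1
    refine ⟨S, fun n => (hS n).trans (gap_bound hg hh hc n), fun i => ?_⟩
    obtain ⟨k, hk⟩ := hSf (Sum.inl i)
    refine ⟨k, fun n hn hnZ => ?_⟩
    have := hk n hn
    simp only [if_pos hnZ, Sum.elim_inl] at this
    exact this
  · apply h2
    refine ⟨fun n => if n ∈ Z then ∅ else S n, fun n => ?_, fun i => ?_⟩
    · by_cases hn : n ∈ Z
      · simp only [if_pos hn, Finset.card_empty]; exact Nat.zero_le _
      · simp only [if_neg hn]
        refine (hS n).trans ?_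
        simp only [c, if_neg hn, one_pow, mul_one]
        exact gap_bound' hg hh hc n
    · obtain ⟨k, hk⟩ := hSf (Sum.inr i)
      refine ⟨k, fun n hn hnZ => ?_⟩
      have := hk n hn
      simp only [if_neg hnZ]
      exact this

/-- growth dichotomy -/
theorem growth (H : Star) {h c w : ℕ → ℕ} (hg : Gap h w) (hch : ∀ n, c n ≤ h n) :
    Loc c w Set.univ ∨ Loc h (fun n => w n * c n ^ n) Set.univ := by
  classical
  by_contra hcon
  push Not at hcon
  obtain ⟨h1, h2⟩ := hcon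
  simp only [Loc, not_forall] at h1 h2
  obtain ⟨ι, f, hι, hf, h1⟩ := h1
  obtain ⟨ι', f', hι', hf', h2⟩ := h2
  have hne : Nonempty ι := by
    by_contra he
    rw [not_nonempty_iff] at he
    exact h1 (cap_of_isEmpty _ _ _)
  have hne' : Nonempty ι' := by
    by_contra he
    rw [not_nonempty_iff] at he
    exact h2 (cap_of_isEmpty _ _ _)
  have hc1 : ∀ l, 1 ≤ c l := fun l => by
    have := hf (Classical.arbitrary ι) l
    omega
  have hh : ∀ l, 1 ≤ h l := fun l => (hc1 l).trans (hch l)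
  have hcc : ∀ l, c l * h l ≤ h l ^ 2 := fun l => by
    rw [sq]; exact Nat.mul_le_mul_right _ (hch l)
  let g : ι ⊕ ι' → ℕ → ℕ := fun ξ n => c n * (Sum.elim (fun _ => 0) (fun i => f' i n) ξ) +
    (Sum.elim (fun i => f i n) (fun _ => 0) ξ)
  have hg' : ∀ ξ n, g ξ n < c n * h n := by
    rintro (ξ | ξ) n
    · simp only [g, Sum.elim_inl, mul_zero, zero_add]
      exact (hf ξ n).trans_le (Nat.le_mul_of_pos_right _ (hh n))
    · simp only [g, Sum.elim_inr, add_zero]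
      exact Nat.mul_lt_mul_of_pos_left (hf' ξ n) (hc1 n)
  rcases quot_fam H (join hι hι') (fun n => c n * h n) c (fun i v => v % c i)
    (fun i v _ => Nat.mod_lt _ (hc1 i)) g hg' with ⟨S, hS, hSf⟩ | ⟨S, hS, hSf⟩
  · apply h1
    refine ⟨S, fun n => (hS n).trans (gap_bound hg hh hcc n), fun i => ?_⟩
    obtain ⟨k, hk⟩ := hSf (Sum.inl i)
    refine ⟨k, fun n hn _ => ?_⟩
    have := hk n hn
    simp only [g, Sum.elim_inl, mul_zero, zero_add] at this
    rwa [Nat.mod_eq_of_lt (hf i n)] at this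
  · apply h2
    refine ⟨fun n => (S n).image fun v => v / c n, fun n => ?_, fun i => ?_⟩
    · refine Finset.card_image_le.trans ((hS n).trans ?_)
      rw [← mul_assoc]
      exact Nat.mul_le_mul_right _ (gap_bound' hg hh hcc n)
    · obtain ⟨k, hk⟩ := hSf (Sum.inr i)
      refine ⟨k, fun n hn _ => ?_⟩
      have := hk n hn
      simp only [g, Sum.elim_inr, add_zero] at this
      rw [Finset.mem_image]
      exact ⟨_, this, Nat.mul_div_cancel_left _ (hc1 n)⟩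

end Pool.Agent.H4PP
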