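import Mathlib
import Pool.Agent.H4PP.Loc

/-!
# H4PP/Ultra: the ultrafilter of the sets on which some family is not localised is a P-point
-/

set_option autoImplicit false

namespace Pool.Agent.H4PP

open Finset Pool.Agent.Helper8.KP

/-- `ℵ₁` functions, indexed by any type of size at most `ℵ₁`, are dominated -/
theorem dom_fam (H : Star) {ι : Type*} [Nonempty ι] (hι : Cardinal.mk ι ≤ Cardinal.aleph 1) (f : ι → ℕ → ℕ) :
    ∃ g : ℕ → ℕ, ∀ a, ∃ N, ∀ n, N ≤ n → f a n ≤ g n := by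
  obtain ⟨Ω, i1, i2, i3, hc, hΩ⟩ := exists_omega1
  obtain ⟨e⟩ : Nonempty (ι ↪ Ω) := by
    rw [← Cardinal.lift_mk_le', hΩ, Cardinal.lift_aleph]
    refine (Cardinal.lift_le.2 hι).trans ?_
    rw [Cardinal.lift_aleph]
    simp
  have hπ : ∀ i, Function.invFun e (e i) = i := Function.leftInverse_invFun e.injective
  obtain ⟨g, hg⟩ := exists_dom H hc (fun ξ => f (Function.invFun e ξ))
  refine ⟨g, fun a => ?_⟩
  obtain ⟨N, hN⟩ := hg (e a)
  refine ⟨N, fun n hn => ?_⟩
  have := hN n hn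
  rwa [hπ] at this

/-- a family which is captured on each `Z n` is captured on a pseudounion of the `Z n` -/
theorem cap_union (H : Star) {ι : Type*} (hι : Cardinal.mk ι ≤ Cardinal.aleph 1) (f : ι → ℕ → ℕ) (w : ℕ → ℕ)
    (Z : ℕ → Set ℕ) (hZ : ∀ n, Cap f w (Z n)) : ∃ E : Set ℕ, Cap f w E ∧ ∀ n, (Z n \ E).Finite := by
  classical
  by_cases hne : Nonempty ι
  swap
  · rw [not_nonempty_iff] at hne
    exact ⟨Set.univ, cap_of_isEmpty _ _ _, fun n => by simp⟩
  choose S hS hSf using hZ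
  choose k hk using hSf
  obtain ⟨K, hK⟩ := dom_fam H hι (fun i n => k n i)
  refine ⟨{j | ∃ n, j ∈ Z n ∧ K n ≤ j}, ?_, fun n => ?_⟩
  · refine ⟨fun j => if hj : ∃ n, j ∈ Z n ∧ K n ≤ j then S (Nat.find hj) j else ∅, fun j => ?_, fun i => ?_⟩
    · by_cases hj : ∃ n, j ∈ Z n ∧ K n ≤ j
      · simp only [dif_pos hj]; exact hS _ j
      · simp only [dif_neg hj, Finset.card_empty]; exact Nat.zero_le _
    · obtain ⟨N, hN⟩ := hK i
      refine ⟨(Finset.range N).sup (fun n => k n i), fun j hjk hj => ?_⟩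
      rw [Set.mem_ofPred_eq] at hj
      simp only [dif_pos hj]
      have h1 := Nat.find_spec hj
      apply hk _ i j _ h1.1
      rcases lt_or_ge (Nat.find hj) N with h2 | h2
      · exact (Finset.le_sup (f := fun n => k n i) (Finset.mem_range.2 h2)).trans hjk
      · exact (hN _ h2).trans h1.2
  · refine (Set.finite_Iio (K n)).subset ?_
    rintro j ⟨h1, h2⟩
    rw [Set.mem_Iio]
    by_contra h3
    exact h2 ⟨n, h1, not_lt.1 h3⟩

theorem loc_finite (h w : ℕ → ℕ) {Z : Set ℕ} (hZ : Z.Finite) : Loc h w Z := by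
  intro ι f _ _
  obtain ⟨m, hm⟩ := hZ.bddAbove
  refine ⟨fun _ => ∅, fun _ => Nat.zero_le _, fun i => ⟨m + 1, fun n hn hnZ => ?_⟩⟩
  have := hm hnZ
  omega

theorem ultra (H : Star) {h w : ℕ → ℕ} (hg : Gap h w) :
    Loc h w Set.univ ∨ ∃ U : Ultrafilter ℕ, PPt U ∧ ∀ Z : Set ℕ, Z ∉ U ↔ Loc h w Z := by
  classical
  by_cases hL : Loc h w Set.univ
  · exact Or.inl hL
  right
  have hor := loc_or H hg
  have hnot : ∀ Z, ¬ (Loc h w Z ∧ Loc h w Zᶜ) := by
    rintro Z ⟨h1, h2⟩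
    apply hL
    have := h1.union h2
    rwa [Set.union_compl_self] at this
  let 𝓕 : Filter ℕ :=
    { sets := {Z | Loc h w Zᶜ}
      univ_sets := by
        show Loc h w (Set.univ)ᶜ
        rw [Set.compl_univ]
        exact loc_finite h w Set.finite_empty
      sets_of_superset := by
        intro Z Z' hZ hZZ
        exact Loc.mono hZ (Set.compl_subset_compl.2 hZZ)
      inter_sets := by
        intro Z Z' hZ hZ'
        show Loc h w (Z ∩ Z')ᶜ
        rw [Set.compl_inter]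
        exact Loc.union hZ hZ' }
  have hmem : ∀ Z, Z ∈ 𝓕 ↔ Loc h w Zᶜ := fun Z => Iff.rfl
  let U : Ultrafilter ℕ := Ultrafilter.ofComplNotMemIff 𝓕 (by
    intro Z
    rw [hmem, hmem, compl_compl]
    constructor
    · intro h1
      exact (hor Z).resolve_left h1
    · intro h1 h2
      exact hnot Z ⟨h2, h1⟩)
  have hU : ∀ Z, Z ∈ U ↔ Loc h w Zᶜ := fun Z => Iff.rfl
  have hU' : ∀ Z : Set ℕ, Z ∉ U ↔ Loc h w Z := by
    intro Z
    rw [← Ultrafilter.compl_mem_iff_notMem, hU, compl_compl]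
  refine ⟨U, ⟨fun n => ?_, fun A hA => ?_⟩, hU'⟩
  · rw [hU']
    exact loc_finite h w (Set.finite_singleton n)
  · have hL' := hL
    simp only [Loc, not_forall] at hL'
    obtain ⟨ι, f, hι, hf, hfc⟩ := hL'
    have huniv : ∀ Z, Cap f w Z → Loc h w Z := by
      intro Z hZ
      by_contra hcon
      apply hfc
      have h1 := ((hor Z).resolve_left hcon) ι f hι hf
      have h2 := hZ.union h1
      rwa [Set.union_compl_self] at h2
    obtain ⟨E, hE, hEf⟩ := cap_union H hι f w (fun n => (A n)ᶜ) (fun n => ((hU _).1 (hA n)) ι f hι hf)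
    refine ⟨Eᶜ, ?_, fun n => ?_⟩
    · rw [hU, compl_compl]
      exact huniv E hE
    · refine (hEf n).subset ?_
      rintro j ⟨h1, h2⟩
      exact ⟨h2, h1⟩

end Pool.Agent.H4PP
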