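import Mathlib
import Pool.Agent.H4PP.Ultra

/-!
# H4PP/Add: if there is no P-point then every family of at most `ℵ₁` functions is localised
-/

set_option autoImplicit false

namespace Pool.Agent.H4PP

open Finset Pool.Agent.Helper8.KP

/-- the number of codes below `v` -/
def pB (B : ℕ → ℕ) (v : ℕ) : ℕ := ∏ n ∈ Finset.range v, (B n + 1)

theorem pB_pos (B : ℕ → ℕ) (v : ℕ) : 1 ≤ pB B v :=
  Nat.succ_le_of_lt (Finset.prod_pos fun _ _ => Nat.succ_pos _)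

theorem pB_mono (B : ℕ → ℕ) : Monotone (pB B) := by
  intro v v' hv
  exact Finset.prod_le_prod_of_subset_of_one_le' (Finset.range_mono hv) fun n _ _ => by omega

/-- localisation of blocks -/
theorem block {Ω : Type} (hΩ : Cardinal.mk Ω ≤ Cardinal.aleph 1) (B b W : ℕ → ℕ) (E : Set ℕ)
    (hL : Loc (fun k => pB B (b k)) W E) (f : Ω → ℕ → ℕ) (hf : ∀ ξ, ∃ N, ∀ n, N ≤ n → f ξ n ≤ B n) :
    ∃ T : ℕ → ℕ → Finset ℕ, (∀ k n, (T k n).card ≤ W k) ∧
      ∀ ξ, ∃ k₀, ∀ k n, k₀ ≤ k → k ∈ E → k₀ ≤ n → n < b k → f ξ n ∈ T k n := by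
  classical
  have hcd : ∀ k, Fintype.card ((n : Fin (b k)) → Fin (B n + 1)) = pB B (b k) := by
    intro k
    rw [Fintype.card_pi]
    simp only [Fintype.card_fin]
    exact Fin.prod_univ_eq_prod_range (fun n => B n + 1) (b k)
  let e : (k : ℕ) → ((n : Fin (b k)) → Fin (B n + 1)) ≃ Fin (pB B (b k)) := fun k =>
    Fintype.equivFinOfCardEq (hcd k)
  let F : Ω → ℕ → ℕ := fun ξ k =>
    (e k fun n => ⟨min (f ξ n) (B n), Nat.lt_succ_of_le (min_le_right _ _)⟩).val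
  obtain ⟨S, hS, hSf⟩ := hL Ω F hΩ (fun ξ k => Fin.isLt _)
  refine ⟨fun k n => (S k).image fun s => if hs : s < pB B (b k) then
    (if hn : n < b k then ((e k).symm ⟨s, hs⟩ ⟨n, hn⟩).val else 0) else 0,
    fun k n => Finset.card_image_le.trans (hS k), fun ξ => ?_⟩
  obtain ⟨k₁, hk₁⟩ := hSf ξ
  obtain ⟨N, hN⟩ := hf ξ
  refine ⟨k₁ + N, fun k n hk hkE hn hnb => ?_⟩
  rw [Finset.mem_image]
  refine ⟨F ξ k, hk₁ k (by omega) hkE, ?_⟩
  have hs : F ξ k < pB B (b k) := Fin.isLt _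
  rw [dif_pos hs, dif_pos hnb]
  have h1 : (⟨F ξ k, hs⟩ : Fin (pB B (b k))) =
      e k fun n => ⟨min (f ξ n) (B n), Nat.lt_succ_of_le (min_le_right _ _)⟩ := Fin.ext rfl
  rw [h1, Equiv.symm_apply_apply]
  exact min_eq_left (hN n (by omega))

/-- the bound for the widths -/
def gB (B : ℕ → ℕ) (j v : ℕ) : ℕ := j ^ 2 * (pB B v ^ j) ^ (2 * j ^ 2)

/-- the ends of the blocks -/
def uB (B θ g : ℕ → ℕ) : ℕ → ℕ
  | 0 => 0
  | j + 1 => max (uB B θ g j + 1) (max (θ (gB B (j + 1) (uB B θ g j))) (g (uB B θ g j)))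

theorem uB_strictMono (B θ g : ℕ → ℕ) : StrictMono (uB B θ g) := by
  apply strictMono_nat_of_lt_succ
  intro j
  rw [uB]
  exact lt_of_lt_of_le (Nat.lt_succ_self _) (le_max_left _ _)

theorem width_le (B θ g : ℕ → ℕ) (p k : ℕ) (hk : 1 ≤ k) :
    k ^ 2 * (∏ l ∈ Finset.range k, pB B (uB B θ g (2 * l + p + 1))) ^ (2 * k ^ 2) ≤
      gB B (2 * k + p) (uB B θ g (2 * k + p - 1)) := by
  set v := uB B θ g (2 * k + p - 1) with hv
  have h1 : ∏ l ∈ Finset.range k, pB B (uB B θ g (2 * l + p + 1)) ≤ pB B v ^ k := by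
    calc ∏ l ∈ Finset.range k, pB B (uB B θ g (2 * l + p + 1)) ≤ ∏ _l ∈ Finset.range k, pB B v := by
          refine Finset.prod_le_prod' fun l hl => ?_
          rw [Finset.mem_range] at hl
          exact pB_mono B ((uB_strictMono B θ g).monotone (by omega))
      _ = _ := by rw [Finset.prod_const, Finset.card_range]
  have hp := pB_pos B v
  rw [gB]
  refine Nat.mul_le_mul (Nat.pow_le_pow_left (by omega) 2) ?_
  calc (∏ l ∈ Finset.range k, pB B (uB B θ g (2 * l + p + 1))) ^ (2 * k ^ 2)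
      ≤ (pB B v ^ k) ^ (2 * k ^ 2) := Nat.pow_le_pow_left h1 _
    _ ≤ (pB B v ^ (2 * k + p)) ^ (2 * k ^ 2) :=
        Nat.pow_le_pow_left (Nat.pow_le_pow_right hp (by omega)) _
    _ ≤ _ := by
        refine Nat.pow_le_pow_right (Nat.one_le_pow _ _ hp) ?_
        exact Nat.mul_le_mul_left _ (Nat.pow_le_pow_left (by omega) 2)

theorem add_main (H : Star) (hP : ∀ U : Ultrafilter ℕ, ¬ PPt U) {Ω : Type} [Nonempty Ω]
    (hΩ : Cardinal.mk Ω ≤ Cardinal.aleph 1) (f : Ω → ℕ → ℕ) (w : ℕ → ℕ)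
    (hw : Filter.Tendsto w Filter.atTop Filter.atTop) : Cap f w Set.univ := by
  classical
  obtain ⟨B, hB⟩ := dom_fam H hΩ f
  have hθ : ∀ z, ∃ N, ∀ n, N ≤ n → z ≤ w n := fun z =>
    Filter.eventually_atTop.1 (hw.eventually_ge_atTop z)
  choose θ hθ using hθ
  set u := uB B θ (fun _ => 0) with hu
  have hmono : StrictMono u := uB_strictMono B θ _
  have hT : ∀ p : ℕ, ∃ T : ℕ → ℕ → Finset ℕ,
      (∀ k n, (T k n).card ≤ k ^ 2 * (∏ l ∈ Finset.range k, pB B (u (2 * l + p + 1))) ^ (2 * k ^ 2)) ∧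
      ∀ ξ, ∃ k₀, ∀ k n, k₀ ≤ k → k ∈ Set.univ → k₀ ≤ n → n < u (2 * k + p + 1) → f ξ n ∈ T k n := by
    intro p
    refine block hΩ B (fun k => u (2 * k + p + 1)) _ Set.univ ?_ f hB
    rcases ultra H (h := fun k => pB B (u (2 * k + p + 1)))
      (w := fun k => k ^ 2 * (∏ l ∈ Finset.range k, pB B (u (2 * l + p + 1))) ^ (2 * k ^ 2))
      (fun n => le_rfl) with h1 | ⟨U, hU, -⟩
    · exact h1
    · exact absurd hU (hP U)
  choose T hT1 hT2 using hT
  have hj : ∀ n, ∃ j, n < u (j + 1) := fun n => ⟨n, lt_of_lt_of_le (Nat.lt_succ_self n) hmono.le_apply⟩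
  let J : ℕ → ℕ := fun n => Nat.find (hj n)
  have hJ1 : ∀ n, n < u (J n + 1) := fun n => Nat.find_spec (hj n)
  have hJ2 : ∀ n, u (J n) ≤ n := by
    intro n
    rcases Nat.eq_zero_or_pos (J n) with h1 | h1
    · rw [h1]
      exact Nat.zero_le _
    · by_contra h2
      push Not at h2
      have h3 := Nat.find_min (hj n) (m := J n - 1) (by
        show J n - 1 < J n
        omega)
      apply h3
      rwa [Nat.sub_add_cancel h1]
  refine ⟨fun n => T (J n % 2) (J n / 2) n, fun n => ?_, fun ξ => ?_⟩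
  · refine (hT1 _ _ _).trans ?_
    rcases Nat.eq_zero_or_pos (J n / 2) with h1 | h1
    · rw [h1]
      simp
    · refine (width_le B θ _ (J n % 2) (J n / 2) h1).trans ?_
      rw [Nat.div_add_mod]
      apply hθ
      refine le_trans ?_ (hJ2 n)
      obtain ⟨j, hj'⟩ : ∃ j, J n = j + 1 := ⟨J n - 1, by omega⟩
      rw [hj', Nat.add_sub_cancel, hu]
      exact (le_max_left _ _).trans (le_max_right _ _)
  · obtain ⟨k₀, hk₀⟩ := hT2 0 ξ
    obtain ⟨k₁, hk₁⟩ := hT2 1 ξ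
    refine ⟨k₀ + k₁ + u (2 * (k₀ + k₁) + 2), fun n hn _ => ?_⟩
    have h1 : 2 * (k₀ + k₁) + 1 ≤ J n := by
      by_contra h2
      push Not at h2
      have h3 : u (J n + 1) ≤ u (2 * (k₀ + k₁) + 2) := hmono.monotone (by omega)
      have h4 := hJ1 n
      omega
    have h5 := hJ1 n
    have h6 := Nat.div_add_mod (J n) 2
    rcases Nat.mod_two_eq_zero_or_one (J n) with h2 | h2
    · show f ξ n ∈ T (J n % 2) (J n / 2) n
      rw [h2]
      refine hk₀ (J n / 2) n (by omega) (Set.mem_univ _) (by omega) ?_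
      rw [show 2 * (J n / 2) + 0 + 1 = J n + 1 by omega]
      exact h5
    · show f ξ n ∈ T (J n % 2) (J n / 2) n
      rw [h2]
      refine hk₁ (J n / 2) n (by omega) (Set.mem_univ _) (by omega) ?_
      rw [show 2 * (J n / 2) + 1 + 1 = J n + 1 by omega]
      exact h5

/-- the union of the intervals `[a k, b k)` with index in `E` -/
def Iv (a b : ℕ → ℕ) (E : Set ℕ) : Set ℕ := {n | ∃ k ∈ E, a k ≤ n ∧ n < b k}

theorem intervals_aux (H : Star) {Ω : Type} [Nonempty Ω] (hΩ : Cardinal.mk Ω ≤ Cardinal.aleph 1)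
    (f : Ω → ℕ → ℕ) (w : ℕ → ℕ) (hw : Filter.Tendsto w Filter.atTop Filter.atTop) (g : ℕ → ℕ) :
    ∃ a b : ℕ → ℕ, (∀ k, g (a k) ≤ b k ∧ a k < b k ∧ b k ≤ a (k + 1)) ∧
      (Cap f w (Iv a b Set.univ) ∨
        ∃ U : Ultrafilter ℕ, PPt U ∧ ∀ E : Set ℕ, E ∉ U ↔ Cap f w (Iv a b E)) := by
  classical
  obtain ⟨B, hB⟩ := dom_fam H hΩ f
  have hθ : ∀ z, ∃ N, ∀ n, N ≤ n → z ≤ w n := fun z =>
    Filter.eventually_atTop.1 (hw.eventually_ge_atTop z)
  choose θ hθ using hθ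
  set u := uB B θ g with hu
  have hmono : StrictMono u := uB_strictMono B θ g
  have hab : ∀ k, g (u (2 * k)) ≤ u (2 * k + 1) ∧ u (2 * k) < u (2 * k + 1) ∧ u (2 * k + 1) ≤ u (2 * (k + 1)) := by
    intro k
    refine ⟨?_, hmono (by omega), hmono.monotone (by omega)⟩
    rw [hu, uB]
    exact (le_max_right _ _).trans (le_max_right _ _)
  refine ⟨fun k => u (2 * k), fun k => u (2 * k + 1), hab, ?_⟩
  have hκ : ∀ n, ∃ k, ∀ k', u (2 * k') ≤ n → n < u (2 * k' + 1) → k' = k := by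
    intro n
    by_cases hn : ∃ k, u (2 * k) ≤ n ∧ n < u (2 * k + 1)
    · obtain ⟨k, hk1, hk2⟩ := hn
      refine ⟨k, fun k' h1 h2 => ?_⟩
      rcases lt_trichotomy k' k with h3 | h3 | h3
      · have h4 : u (2 * k' + 1) ≤ u (2 * k) := hmono.monotone (by omega)
        omega
      · exact h3
      · have h4 : u (2 * k + 1) ≤ u (2 * k') := hmono.monotone (by omega)
        omega
    · exact ⟨0, fun k' h1 h2 => absurd ⟨k', h1, h2⟩ hn⟩
  choose κ hκ using hκ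
  have hcap : ∀ E : Set ℕ, Loc (fun k => pB B (u (2 * k + 1)))
      (fun k => k ^ 2 * (∏ l ∈ Finset.range k, pB B (u (2 * l + 1))) ^ (2 * k ^ 2)) E →
      Cap f w (Iv (fun k => u (2 * k)) (fun k => u (2 * k + 1)) E) := by
    intro E hL
    obtain ⟨T, hT1, hT2⟩ := block hΩ B (fun k => u (2 * k + 1)) _ E hL f hB
    refine ⟨fun n => if u (2 * κ n) ≤ n then T (κ n) n else ∅, fun n => ?_, fun ξ => ?_⟩
    · by_cases hn : u (2 * κ n) ≤ n
      · simp only [if_pos hn]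
        refine (hT1 _ _).trans ?_
        rcases Nat.eq_zero_or_pos (κ n) with h1 | h1
        · rw [h1]
          simp
        · refine (width_le B θ g 0 (κ n) h1).trans ?_
          apply hθ
          refine le_trans ?_ hn
          obtain ⟨j, hj'⟩ : ∃ j, 2 * κ n = j + 1 := ⟨2 * κ n - 1, by omega⟩
          rw [add_zero, hj', Nat.add_sub_cancel, hu]
          exact (le_max_left _ _).trans (le_max_right _ _)
      · simp only [if_neg hn, Finset.card_empty]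
        exact Nat.zero_le _
    · obtain ⟨k₀, hk₀⟩ := hT2 ξ
      refine ⟨k₀ + u (2 * k₀), fun n hn hnE => ?_⟩
      obtain ⟨k, hkE, hk1, hk2⟩ := hnE
      have h1 := hκ n k hk1 hk2
      subst h1
      simp only [if_pos hk1]
      refine hk₀ _ n ?_ hkE (by omega) hk2
      by_contra h2
      push Not at h2
      have h3 : u (2 * κ n + 1) ≤ u (2 * k₀) := hmono.monotone (by omega)
      have h4 : n < u (2 * κ n + 1) := hk2
      omega
  by_cases hfull : Cap f w (Iv (fun k => u (2 * k)) (fun k => u (2 * k + 1)) Set.univ)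
  · exact Or.inl hfull
  right
  rcases ultra H (h := fun k => pB B (u (2 * k + 1)))
    (w := fun k => k ^ 2 * (∏ l ∈ Finset.range k, pB B (u (2 * l + 1))) ^ (2 * k ^ 2))
    (fun n => le_rfl) with h1 | ⟨U, hU, hUL⟩
  · exact absurd (hcap _ h1) hfull
  · refine ⟨U, hU, fun E => ⟨fun h1 => hcap E ((hUL E).1 h1), fun h1 h2 => hfull ?_⟩⟩
    have h3 : Eᶜ ∉ U := by
      rw [Ultrafilter.compl_notMem_iff]
      exact h2
    have h4 := h1.union (hcap _ ((hUL _).1 h3))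
    refine h4.mono (fun _ => le_rfl) ?_
    rintro n ⟨k, -, hk⟩
    by_cases hkE : k ∈ E
    · exact Or.inl ⟨k, hkE, hk⟩
    · exact Or.inr ⟨k, hkE, hk⟩

theorem transfer_cap {ι : Type*} {Ω : Type} (e : ι → Ω) (π : Ω → ι) (hπ : ∀ i, π (e i) = i) (f : ι → ℕ → ℕ)
    (w : ℕ → ℕ) (Z : Set ℕ) : Cap (fun ξ => f (π ξ)) w Z ↔ Cap f w Z := by
  constructor
  · rintro ⟨S, hS, hSf⟩
    refine ⟨S, hS, fun i => ?_⟩
    obtain ⟨k, hk⟩ := hSf (e i)
    refine ⟨k, fun n hn hnZ => ?_⟩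
    have h1 : f (π (e i)) n ∈ S n := hk n hn hnZ
    rwa [hπ] at h1
  · rintro ⟨S, hS, hSf⟩
    exact ⟨S, hS, fun ξ => hSf (π ξ)⟩

theorem exists_transfer {ι : Type*} [Nonempty ι] (hι : Cardinal.mk ι ≤ Cardinal.aleph 1) :
    ∃ (Ω : Type) (e : ι → Ω) (π : Ω → ι), Nonempty Ω ∧ Cardinal.mk Ω ≤ Cardinal.aleph 1 ∧ ∀ i, π (e i) = i := by
  obtain ⟨Ω, i1, i2, i3, hc, hΩ⟩ := exists_omega1
  obtain ⟨e⟩ : Nonempty (ι ↪ Ω) := by
    rw [← Cardinal.lift_mk_le', hΩ, Cardinal.lift_aleph]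
    refine (Cardinal.lift_le.2 hι).trans ?_
    rw [Cardinal.lift_aleph]
    simp
  exact ⟨Ω, e, Function.invFun e, ⟨e (Classical.arbitrary ι)⟩, hΩ.le, Function.leftInverse_invFun e.injective⟩

theorem intervals (H : Star) {ι : Type*} (hι : Cardinal.mk ι ≤ Cardinal.aleph 1)
    (f : ι → ℕ → ℕ) (w : ℕ → ℕ) (hw : Filter.Tendsto w Filter.atTop Filter.atTop) (g : ℕ → ℕ) :
    ∃ a b : ℕ → ℕ, (∀ k, g (a k) ≤ b k ∧ a k < b k ∧ b k ≤ a (k + 1)) ∧
      (Cap f w (Iv a b Set.univ) ∨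
        ∃ U : Ultrafilter ℕ, PPt U ∧ ∀ E : Set ℕ, E ∉ U ↔ Cap f w (Iv a b E)) := by
  rcases isEmpty_or_nonempty ι with hne | hne
  · have hmono := uB_strictMono (fun _ => 0) (fun _ => 0) g
    refine ⟨fun k => uB (fun _ => 0) (fun _ => 0) g (2 * k), fun k => uB (fun _ => 0) (fun _ => 0) g (2 * k + 1),
      fun k => ⟨?_, hmono (by omega), hmono.monotone (by omega)⟩, Or.inl (cap_of_isEmpty _ _ _)⟩
    show g (uB (fun _ => 0) (fun _ => 0) g (2 * k)) ≤ uB (fun _ => 0) (fun _ => 0) g (2 * k + 1)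
    rw [uB]
    exact (le_max_right _ _).trans (le_max_right _ _)
  · obtain ⟨Ω, e, π, hΩ0, hΩ, hπ⟩ := exists_transfer hι
    obtain ⟨a, b, hab, h1⟩ := intervals_aux H hΩ (fun ξ => f (π ξ)) w hw g
    refine ⟨a, b, hab, ?_⟩
    rcases h1 with h1 | ⟨U, hU, hUE⟩
    · exact Or.inl ((transfer_cap e π hπ f w _).1 h1)
    · exact Or.inr ⟨U, hU, fun E => (hUE E).trans (transfer_cap e π hπ f w _)⟩

theorem add_all (H : Star) (hP : ∀ U : Ultrafilter ℕ, ¬ PPt U) {ι : Type*} (hι : Cardinal.mk ι ≤ Cardinal.aleph 1)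
    (f : ι → ℕ → ℕ) (w : ℕ → ℕ) (hw : Filter.Tendsto w Filter.atTop Filter.atTop) : Cap f w Set.univ := by
  rcases isEmpty_or_nonempty ι with hne | hne
  · exact cap_of_isEmpty _ _ _
  · obtain ⟨Ω, e, π, hΩ0, hΩ, hπ⟩ := exists_transfer hι
    exact (transfer_cap e π hπ f w _).1 (add_main H hP hΩ (fun ξ => f (π ξ)) w hw)

end Pool.Agent.H4PP
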